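import Pool.Agent.R376.Zkb

/-! Maximum order complexity of the Zeckendorf digit parity along squares. -/

namespace Pool.Agent.Results.MP_d0186b_co.SquareUnbounded

open Pool.Agent.R376.Zk

/-- The maximum order complexity of the sequence `x` over `ZMod 2` at `N` (for `N ≥ 2`):
if `x 0, ..., x (N-2)` are all equal to `a`, it is `0` when `x (N-1) = a` and `N - 1` otherwise;
if they are not all equal, it is the least positive `M` for which some map `f` satisfies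
`x (i + M) = f (x i, ..., x (i + M - 1))` for all `i` with `i + M ≤ N - 1`. -/
noncomputable def maxOrd (x : ℕ → ZMod 2) (N : ℕ) : ℕ :=
  open Classical in
  if ∀ i, i < N - 1 → x i = x 0 then (if x (N - 1) = x 0 then 0 else N - 1)
  else sInf {M : ℕ | 0 < M ∧ ∃ f : (Fin M → ZMod 2) → ZMod 2,
    ∀ i, i + M ≤ N - 1 → x (i + M) = f (fun j => x (i + j))}

/-- The parity of the number of Zeckendorf digits of `P(n)`. -/
def seqZ (P : Polynomial ℤ) (n : ℕ) : ZMod 2 :=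
  ((Nat.zeckendorf (P.eval (n : ℤ)).toNat).length : ZMod 2)

lemma seqZ_sq (n : ℕ) : seqZ (Polynomial.X ^ 2) n = ((sz (n ^ 2) : ℕ) : ZMod 2) := by
  unfold seqZ sz
  congr 3
  simp only [Polynomial.eval_pow, Polynomial.eval_X]
  have : ((n : ℤ) ^ 2) = ((n ^ 2 : ℕ) : ℤ) := by push_cast; rfl
  rw [this, Int.toNat_natCast]

lemma seqZ_eq_iff (n m : ℕ) : seqZ (Polynomial.X ^ 2) n = seqZ (Polynomial.X ^ 2) m ↔ aa n = aa m := by
  rw [seqZ_sq, seqZ_sq, ZMod.natCast_eq_natCast_iff]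
  unfold aa Nat.ModEq
  rfl

/-- lower bound for the complexity from a late mismatch of two windows -/
lemma maxOrd_ge (x : ℕ → ZMod 2) (a b t : ℕ) (hab : a ≤ b)
    (h01 : x 0 ≠ x 1) (hb : 2 ≤ b + t)
    (hagree : ∀ i, i < t → x (a + i) = x (b + i)) (hmis : x (a + t) ≠ x (b + t)) :
    t + 1 ≤ maxOrd x (b + t + 1) := by
  have hnc : ¬ ∀ i, i < b + t + 1 - 1 → x i = x 0 := by
    intro h
    exact h01 (h 1 (by omega)).symm
  unfold maxOrd
  rw [if_neg hnc]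
  have hne : {M : ℕ | 0 < M ∧ ∃ f : (Fin M → ZMod 2) → ZMod 2,
      ∀ i, i + M ≤ b + t + 1 - 1 → x (i + M) = f (fun j => x (i + j))}.Nonempty := by
    refine ⟨b + t, by omega, fun _ => x (b + t), ?_⟩
    intro i hi
    have : i = 0 := by omega
    rw [this, zero_add]
  obtain ⟨hM, f, hf⟩ := Nat.sInf_mem hne
  set M := sInf {M : ℕ | 0 < M ∧ ∃ f : (Fin M → ZMod 2) → ZMod 2,
      ∀ i, i + M ≤ b + t + 1 - 1 → x (i + M) = f (fun j => x (i + j))} with hMdef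
  by_contra hcon
  have hMt : M ≤ t := by omega
  have h1 := hf (a + (t - M)) (by omega)
  have h2 := hf (b + (t - M)) (by omega)
  rw [show a + (t - M) + M = a + t by omega] at h1
  rw [show b + (t - M) + M = b + t by omega] at h2
  apply hmis
  rw [h1, h2]
  congr 1
  funext j
  have hj := j.2
  have := hagree (t - M + j) (by omega)
  rw [show a + (t - M) + (j : ℕ) = a + (t - M + j) by ring,
    show b + (t - M) + (j : ℕ) = b + (t - M + j) by ring]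
  exact this

lemma fib_double (n m : ℕ) (hn : 1 ≤ n) : Nat.fib (n + m) ≤ 2 ^ m * Nat.fib n := by
  induction m with
  | zero => simp
  | succ m ih =>
    obtain ⟨l, hl⟩ : ∃ l, n + m = l + 1 := ⟨n + m - 1, by omega⟩
    have h1 : Nat.fib (n + (m + 1)) = Nat.fib l + Nat.fib (l + 1) := by
      rw [show n + (m + 1) = l + 2 by omega, Nat.fib_add_two]
    have h2 : Nat.fib l ≤ Nat.fib (l + 1) := Nat.fib_mono (by omega)
    rw [h1, pow_succ]
    rw [hl] at ih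
    nlinarith

lemma Lu_bound (r : ℕ) (hr : 2 ≤ r) : Lu (3 * r + 9) ≤ 24576 * Nat.fib r ^ 3 := by
  have h1 := Lu_le (3 * r + 9) (by omega)
  have h2 : Nat.fib (3 * r + 9) ≤ 2 ^ 9 * Nat.fib (3 * r) := fib_double (3 * r) 9 (by omega)
  have h3 : Nat.fib (3 * r) ≤ 2 * (Nat.fib (r + 1) * Nat.fib (2 * r)) := by
    obtain ⟨l, rfl⟩ : ∃ l, r = l + 1 := ⟨r - 1, by omega⟩
    rw [show 3 * (l + 1) = (l + 1) + (2 * l + 1) + 1 by ring, Nat.fib_add,
      show 2 * l + 1 + 1 = 2 * (l + 1) by ring]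
    have a1 : Nat.fib (l + 1) ≤ Nat.fib (l + 1 + 1) := Nat.fib_mono (by omega)
    have a2 : Nat.fib (2 * l + 1) ≤ Nat.fib (2 * (l + 1)) := Nat.fib_mono (by omega)
    have a3 := Nat.mul_le_mul a1 a2
    omega
  have h4 : Nat.fib (r + 1) ≤ 2 ^ 1 * Nat.fib r := fib_double r 1 (by omega)
  have h5 : Nat.fib (2 * r) ≤ 3 * Nat.fib r ^ 2 := by
    rw [fib_two_mul']
    have := Lu_le r (by omega)
    nlinarith
  have h6 : Nat.fib (r + 1) * Nat.fib (2 * r) ≤ (2 ^ 1 * Nat.fib r) * (3 * Nat.fib r ^ 2) :=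
    Nat.mul_le_mul h4 h5
  nlinarith

/-- For infinitely many `N`, an explicit cubic lower bound. -/
lemma cubic (r : ℕ) (hr : 2 ≤ r) : ∃ N, Nat.fib r ≤ N ∧
    (N : ℝ) ≤ (37 * (maxOrd (seqZ (Polynomial.X ^ 2)) N : ℝ)) ^ 3 := by
  obtain ⟨k, hk, hk1, hk2⟩ : ∃ k, Even k ∧ 3 * r + 6 ≤ k ∧ k ≤ 3 * r + 7 := by
    rcases Nat.even_or_odd (3 * r + 6) with h | h
    · exact ⟨3 * r + 6, h, le_rfl, by omega⟩
    · exact ⟨3 * r + 7, h.add_one, by omega, le_rfl⟩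
  classical
  have hex := exists_mismatch k hk
  set t := Nat.find hex with ht
  have hmis : aa (Lu k + t) ≠ aa (Lu (k + 2) + t) := Nat.find_spec hex
  have hag : ∀ i, i < t → aa (Lu k + i) = aa (Lu (k + 2) + i) := by
    intro i hi
    by_contra hcon
    exact Nat.find_min hex hi hcon
  have htr : Nat.fib r < t := by
    by_contra hcon
    apply hmis
    unfold aa
    rw [agree r k t hr hk hk1 (not_lt.1 hcon)]
  have h01 : seqZ (Polynomial.X ^ 2) 0 ≠ seqZ (Polynomial.X ^ 2) 1 := by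
    intro h
    rw [seqZ_eq_iff] at h
    have e0 : aa 0 = 0 := by
      unfold aa sz
      simp
    have e1 : aa 1 = 1 := by
      have h := zeck_fib 2 le_rfl
      have h2 : Nat.fib 2 = 1 := rfl
      rw [h2] at h
      unfold aa sz
      rw [one_pow, h]
      rfl
    omega
  have hfr : 1 ≤ Nat.fib r := Nat.fib_pos.2 (by omega)
  have hM := maxOrd_ge (seqZ (Polynomial.X ^ 2)) (Lu k) (Lu (k + 2)) t
    (by rw [Lu_add_two]; omega) h01 (by omega)
    (fun i hi => (seqZ_eq_iff _ _).2 (hag i hi)) (fun h => hmis ((seqZ_eq_iff _ _).1 h))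
  set M := maxOrd (seqZ (Polynomial.X ^ 2)) (Lu (k + 2) + t + 1) with hMd
  refine ⟨Lu (k + 2) + t + 1, by omega, ?_⟩
  rw [← hMd]
  have hLb : Lu (k + 2) ≤ 24576 * Nat.fib r ^ 3 := by
    refine le_trans ?_ (Lu_bound r hr)
    rcases (by omega : k + 2 = 3 * r + 8 ∨ k + 2 = 3 * r + 9) with h | h
    · rw [h, show 3 * r + 9 = (3 * r + 7) + 2 by ring, Lu_add_two (3 * r + 7)]
      exact Nat.le_add_right _ _
    · rw [h]
  have hN : Lu (k + 2) + t + 1 ≤ (37 * M) ^ 3 := by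
    have a1 : Nat.fib r ^ 3 ≤ M ^ 3 := Nat.pow_le_pow_left (by omega) 3
    have a2 : M ≤ M ^ 3 := Nat.le_self_pow (by norm_num) M
    have a3 : (37 * M) ^ 3 = 50653 * M ^ 3 := by ring
    rw [a3]
    omega
  exact_mod_cast hN

/-- (i) For infinitely many `N`, `M(S_{Z,X^2}, N) ≥ N^{1/3} / 37`; (ii) the statement of the
question is false. -/
theorem result :
    (∃ c : ℝ, 0 < c ∧ ∀ N0 : ℕ, ∃ N ≥ N0,
      c * (N : ℝ) ^ ((1 : ℝ) / 3) ≤ (maxOrd (seqZ (Polynomial.X ^ 2)) N : ℝ)) ∧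
    ¬ (∀ P : Polynomial ℤ, P.Monic → 2 ≤ P.natDegree → (∀ n : ℕ, 0 ≤ P.eval (n : ℤ)) →
      ∃ c C : ℝ, 0 < c ∧ 0 < C ∧ ∃ N0 : ℕ, ∀ N ≥ N0,
        c * (N : ℝ) ^ ((1 : ℝ) / (2 * (P.natDegree : ℝ))) ≤ (maxOrd (seqZ P) N : ℝ) ∧
        (maxOrd (seqZ P) N : ℝ) ≤ C * (N : ℝ) ^ ((1 : ℝ) / (2 * (P.natDegree : ℝ)))) := by
  have key : ∀ N0 : ℕ, ∃ N ≥ N0, 1 ≤ N ∧
      (N : ℝ) ^ ((1 : ℝ) / 3) ≤ 37 * (maxOrd (seqZ (Polynomial.X ^ 2)) N : ℝ) := by
    intro N0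
    obtain ⟨N, hN1, hN2⟩ := cubic (N0 + 5) (by omega)
    have h5 : N0 + 5 ≤ Nat.fib (N0 + 5) := Nat.le_fib_self (by omega)
    refine ⟨N, by omega, by omega, ?_⟩
    have h0 : (0 : ℝ) ≤ N := Nat.cast_nonneg N
    calc (N : ℝ) ^ ((1 : ℝ) / 3)
        ≤ ((37 * (maxOrd (seqZ (Polynomial.X ^ 2)) N : ℝ)) ^ 3) ^ ((1 : ℝ) / 3) :=
          Real.rpow_le_rpow h0 hN2 (by norm_num)
      _ = 37 * (maxOrd (seqZ (Polynomial.X ^ 2)) N : ℝ) := by
          rw [← Real.rpow_natCast, ← Real.rpow_mul (by positivity)]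
          norm_num
  refine ⟨⟨1 / 37, by norm_num, ?_⟩, ?_⟩
  · intro N0
    obtain ⟨N, hN, _, h⟩ := key N0
    exact ⟨N, hN, by linarith⟩
  · intro h
    obtain ⟨c, C, _, hC, N0, hall⟩ := h (Polynomial.X ^ 2) (Polynomial.monic_X_pow 2)
      (by rw [Polynomial.natDegree_X_pow]) (fun n => by simp)
    obtain ⟨N, hN, hN1, hlow⟩ := key (max N0 (Nat.ceil ((37 * C) ^ 12) + 1))
    have hup := (hall N (le_trans (le_max_left _ _) hN)).2
    rw [Polynomial.natDegree_X_pow] at hup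
    have he : (1 : ℝ) / (2 * ((2 : ℕ) : ℝ)) = 1 / 4 := by norm_num
    rw [he] at hup
    have hNpos : (0 : ℝ) < N := by exact_mod_cast hN1
    have hsplit : (N : ℝ) ^ ((1 : ℝ) / 3) = (N : ℝ) ^ ((1 : ℝ) / 12) * (N : ℝ) ^ ((1 : ℝ) / 4) := by
      rw [← Real.rpow_add hNpos]
      norm_num
    have hq : 0 < (N : ℝ) ^ ((1 : ℝ) / 4) := Real.rpow_pos_of_pos hNpos _
    have h1 : (N : ℝ) ^ ((1 : ℝ) / 12) ≤ 37 * C := by
      have : (N : ℝ) ^ ((1 : ℝ) / 12) * (N : ℝ) ^ ((1 : ℝ) / 4)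
          ≤ (37 * C) * (N : ℝ) ^ ((1 : ℝ) / 4) := by
        rw [← hsplit]
        linarith
      exact le_of_mul_le_mul_right this hq
    have h2 : (N : ℝ) ≤ (37 * C) ^ 12 := by
      calc (N : ℝ) = ((N : ℝ) ^ ((1 : ℝ) / 12)) ^ 12 := by
            rw [← Real.rpow_natCast, ← Real.rpow_mul hNpos.le]
            norm_num
        _ ≤ (37 * C) ^ 12 := pow_le_pow_left₀ (Real.rpow_nonneg hNpos.le _) h1 12
    have h3 : (Nat.ceil ((37 * C) ^ 12) + 1 : ℕ) ≤ N := le_trans (le_max_right _ _) hN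
    have h4 : ((37 * C) ^ 12 : ℝ) ≤ Nat.ceil ((37 * C) ^ 12) := Nat.le_ceil _
    have h5 : ((Nat.ceil ((37 * C) ^ 12) + 1 : ℕ) : ℝ) ≤ N := by exact_mod_cast h3
    push_cast at h5
    linarith

end Pool.Agent.Results.MP_d0186b_co.SquareUnbounded
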